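import Pool.Agent.Helper1.PK.Final

/-!
# Periodic knots with trivial normalized bracket

Let the closure of the `m`-th power of a word in braid generators, their inverses and turnbacks
be a knot, let `p` be a prime and `p ^ k ∣ m` with `k ≥ 1`.  If the normalized Kauffman bracket
is `1` modulo `p` (in particular if it is `1`), then the linking number of the knot with the axis
is `1` or `-1` modulo `2 p ^ (k + 1)`.
-/

open Pool.Agent.Helper1.PK LaurentPolynomial

namespace Pool.Agent.Helper1.RetiredPeriodicKnots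

theorem result {m q n p k : ℕ} [NeZero (m * q)] (w : ZMod (m * q) → Letter n)
    (hw : ∀ t, w (t + (q : ZMod (m * q))) = w t) (hK : IsKnot w)
    (o : Pt (m * q) n → ℤˣ) (ho : IsOrientation w o)
    (hp : p.Prime) (hk : 1 ≤ k) (hm : p ^ k ∣ m)
    (hf : (p : ℤ[T;T⁻¹]) ∣ normalized w o - 1) :
    (2 * p ^ (k + 1) : ℤ) ∣ winding o - 1 ∨ (2 * p ^ (k + 1) : ℤ) ∣ winding o + 1 := by
  have : Fact p.Prime := ⟨hp⟩
  exact main_word w hw o hK ho hk hm hf

end Pool.Agent.Helper1.RetiredPeriodicKnots
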